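import Pool.Agent.V5helper73.SZ.Stm

set_option autoImplicit false
open Complex Metric Set Filter Topology MeasureTheory

namespace V5helper67.SZ

open V5helper73.SZ

/-- packing of discs -/
theorem pack (s : Finset ℕ) (w : ℕ → ℂ) (c : ℂ) (ρ R : ℝ) (hρ : 0 < ρ) (hR : 0 ≤ R)
    (hsep : ∀ i ∈ s, ∀ j ∈ s, i ≠ j → 2 * ρ ≤ ‖w i - w j‖)
    (hin : ∀ i ∈ s, ‖w i - c‖ ≤ R) : (s.card : ℝ) * ρ ^ 2 ≤ (R + ρ) ^ 2 := by
  have h1 : volume (⋃ i ∈ s, ball (w i) ρ) = ∑ i ∈ s, volume (ball (w i) ρ) := by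
    refine measure_biUnion_finset ?_ (fun i _ => measurableSet_ball)
    intro i hi j hj hij
    refine ball_disjoint_ball ?_
    rw [dist_eq_norm]
    have := hsep i hi j hj hij
    linarith
  have h2 : (⋃ i ∈ s, ball (w i) ρ) ⊆ ball c (R + ρ) := by
    intro z hz
    simp only [mem_iUnion] at hz
    obtain ⟨i, hi, hz⟩ := hz
    rw [mem_ball, dist_eq_norm] at hz ⊢
    have h3 := hin i hi
    calc ‖z - c‖ = ‖(z - w i) + (w i - c)‖ := by ring_nf
      _ ≤ ‖z - w i‖ + ‖w i - c‖ := norm_add_le _ _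
      _ < R + ρ := by linarith
  have h3 := measure_mono (μ := volume) h2
  rw [h1] at h3
  simp only [Complex.volume_ball, Finset.sum_const, nsmul_eq_mul] at h3
  have h4 : (s.card : ENNReal) * (ENNReal.ofReal ρ ^ 2 * (NNReal.pi : ENNReal)) =
      ENNReal.ofReal ((s.card : ℝ) * (ρ ^ 2 * Real.pi)) := by
    rw [ENNReal.ofReal_mul (by positivity), ENNReal.ofReal_mul (by positivity),
      ENNReal.ofReal_pow hρ.le, ENNReal.ofReal_natCast]
    congr 2
    rw [← NNReal.coe_real_pi, ENNReal.ofReal_coe_nnreal]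
  have h5 : ENNReal.ofReal (R + ρ) ^ 2 * (NNReal.pi : ENNReal) =
      ENNReal.ofReal ((R + ρ) ^ 2 * Real.pi) := by
    rw [ENNReal.ofReal_mul (by positivity), ENNReal.ofReal_pow (by positivity)]
    congr 1
    rw [← NNReal.coe_real_pi, ENNReal.ofReal_coe_nnreal]
  rw [h4, h5, ENNReal.ofReal_le_ofReal_iff (by positivity)] at h3
  have h6 : ((s.card : ℝ) * ρ ^ 2) * Real.pi ≤ (R + ρ) ^ 2 * Real.pi := by linarith
  exact le_of_mul_le_mul_right h6 Real.pi_pos

theorem t_AR : S_AR := by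
  intro C hC
  refine ⟨4 * C ^ 4, ?_⟩
  intro w d hT m s σ ε c hε hσ hs
  have hC0 : 0 < C := by linarith
  obtain ⟨ρ, hρ⟩ : ∃ ρ, ρ = ε / (2 * C) := ⟨_, rfl⟩
  have hρ0 : 0 < ρ := by rw [hρ]; positivity
  have hερ : ε = 2 * C * ρ := by rw [hρ]; field_simp
  have hsq : 1 ≤ (σ / ε + 1) ^ 2 := by
    have : 0 ≤ σ / ε := by positivity
    nlinarith
  rcases Nat.eq_zero_or_pos m with hm | hm
  · subst hm
    have h1 : s ⊆ {0} := by
      intro j hj
      have := (hs j hj).1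
      simp at this
      simp [this]
    have h2 := Finset.card_le_card h1
    simp only [Finset.card_singleton] at h2
    have h3 : (s.card : ℝ) ≤ 1 := by exact_mod_cast h2
    have h4 : 1 ≤ C ^ 4 := one_le_pow₀ hC
    nlinarith
  · have h := pack s (fun j => w m j) c ρ (C * σ) hρ0 (by positivity)
      (by
        intro i hi j hj hij
        obtain ⟨hi1, _, hi3⟩ := hs i hi
        obtain ⟨hj1, _, _⟩ := hs j hj
        have h1 := hT.sep m i j hm hi1 hj1 hij
        have h2 : C * (2 * ρ) ≤ C * ‖w m i - w m j‖ := by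
          rw [hερ] at hi3
          nlinarith
        exact le_of_mul_le_mul_left h2 hC0)
      (fun i hi => (hs i hi).2.1)
    have h1 : C * σ + ρ ≤ 2 * C ^ 2 * (σ / ε + 1) * ρ := by
      have h2 : 2 * C ^ 2 * (σ / ε) * ρ = C * σ := by
        rw [hερ]
        field_simp
      have h3 : 1 ≤ C ^ 2 := one_le_pow₀ hC
      have h4 : 2 * C ^ 2 * (σ / ε + 1) * ρ = 2 * C ^ 2 * (σ / ε) * ρ + 2 * C ^ 2 * ρ := by ring
      rw [h4, h2]
      nlinarith
    have h2 : (s.card : ℝ) * ρ ^ 2 ≤ (4 * C ^ 4 * (σ / ε + 1) ^ 2) * ρ ^ 2 := by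
      calc (s.card : ℝ) * ρ ^ 2 ≤ (C * σ + ρ) ^ 2 := h
        _ ≤ (2 * C ^ 2 * (σ / ε + 1) * ρ) ^ 2 := pow_le_pow_left₀ (by positivity) h1 2
        _ = _ := by ring
    exact le_of_mul_le_mul_right h2 (by positivity)

end V5helper67.SZ
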