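import Pool.Agent.V5helper73.SZ.StmB

set_option autoImplicit false
open Complex Metric Set Filter Topology MeasureTheory

namespace V5helper67.SZ

open V5helper73.SZ

theorem t_FIN1 (hTREE : S_TREE) (hATT : S_ATT) (hSUMX : S_SUMX) (hCL1 : S_CL1) : S_FIN1 := by
  classical
  intro lam hlam hlam2
  have h2 : (0 : ℝ) < 1 - 2 ^ (-lam) := by
    have : (2 : ℝ) ^ (-lam) < 1 := Real.rpow_lt_one_of_one_lt_of_neg (by norm_num) (by linarith)
    linarith
  have hR0 : (0 : ℝ) < 2000000 / (1 - 2 ^ (-lam)) := by positivity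
  obtain ⟨K1, hK1⟩ := hSUMX 2000000 lam 0 (by norm_num) le_rfl hlam hlam2
  obtain ⟨K2, hK20, hK2⟩ := hCL1 lam (2000000 / (1 - 2 ^ (-lam))) hlam hR0
  refine ⟨K2 * max K1 0, by positivity, ?_⟩
  intro f hf m
  have hT := hTREE f hf
  have hatt := hATT 2000000 lam (by norm_num) hlam _ _ hT m
  choose! κ hκ using hatt
  obtain ⟨B, hB⟩ : ∃ B : ℕ → ℝ, B = fun k : ℕ => (1 + ((m : ℝ) - (k : ℝ))) *
    2 ^ (((m : ℝ) - (k : ℝ)) * (Real.sqrt (1 + lam ^ 2) - lam)) := ⟨_, rfl⟩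
  have hB0 : ∀ k ∈ Finset.range (m + 1), 0 ≤ B k := by
    intro k hk
    rw [Finset.mem_range] at hk
    have h1 : (k : ℝ) ≤ m := by exact_mod_cast (by omega : k ≤ m)
    rw [hB]
    have : 0 ≤ (m : ℝ) - k := by linarith
    positivity
  -- first splitting
  have e1 : ∑ j ∈ Finset.range (2 ^ m), (dd f (pt m j)) ^ lam =
      ∑ k ∈ Finset.range (m + 1), ∑ j ∈ (Finset.range (2 ^ m)).filter (fun j => κ j = k),
        (dd f (pt m j)) ^ lam := by
    refine (Finset.sum_fiberwise_of_maps_to ?_ _).symm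
    intro j hj
    rw [Finset.mem_range] at hj ⊢
    have := (hκ j hj).1
    omega
  rw [e1, Finset.mul_sum]
  refine Finset.sum_le_sum fun k hk => ?_
  have hkm : k ≤ m := by rw [Finset.mem_range] at hk; omega
  -- second splitting
  obtain ⟨I, hI⟩ : ∃ I, I = (Finset.range (2 ^ k)).filter (fun i => adm lam (fun k i => dd f (pt k i)) k i) :=
    ⟨_, rfl⟩
  obtain ⟨S, hS⟩ : ∃ S, S = (Finset.range (2 ^ m)).filter (fun j => κ j = k) := ⟨_, rfl⟩
  have hmem : ∀ j ∈ S, j < 2 ^ m ∧ j / 2 ^ (m - k) ∈ I ∧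
      ‖f (pt m j) - f (pt k (j / 2 ^ (m - k)))‖ ≤
        2000000 / (1 - 2 ^ (-lam)) * dd f (pt k (j / 2 ^ (m - k))) := by
    intro j hj
    rw [hS, Finset.mem_filter, Finset.mem_range] at hj
    obtain ⟨h3, h4⟩ := hj
    obtain ⟨h5, h6, h7⟩ := hκ j h3
    rw [h4] at h5 h6 h7
    refine ⟨h3, ?_, h7⟩
    rw [hI, Finset.mem_filter, Finset.mem_range]
    refine ⟨?_, h6⟩
    rw [Nat.div_lt_iff_lt_mul (by positivity), ← pow_add]
    rw [show k + (m - k) = m by omega]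
    exact h3
  rw [← hS]
  have e2 : ∑ j ∈ S, (dd f (pt m j)) ^ lam =
      ∑ i ∈ I, ∑ j ∈ S.filter (fun j => j / 2 ^ (m - k) = i), (dd f (pt m j)) ^ lam := by
    refine (Finset.sum_fiberwise_of_maps_to ?_ _).symm
    intro j hj
    exact (hmem j hj).2.1
  rw [e2]
  have h3 : ∀ i ∈ I, ∑ j ∈ S.filter (fun j => j / 2 ^ (m - k) = i), (dd f (pt m j)) ^ lam ≤
      (dd f (pt k i)) ^ lam * (K2 * B k) := by
    intro i hi
    rw [hI, Finset.mem_filter, Finset.mem_range] at hi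
    have hpos : 0 < dd f (pt k i) := hT.pos k i
    have h4 := hK2 f hf.diff hf.inj k m i hkm hi.1 (S.filter (fun j => j / 2 ^ (m - k) = i)) (by
      intro j hj
      rw [Finset.mem_filter] at hj
      obtain ⟨h5, h6, h7⟩ := hmem j hj.1
      rw [hj.2] at h7
      exact ⟨h5, hj.2, h7⟩)
    have h5 : ∑ j ∈ S.filter (fun j => j / 2 ^ (m - k) = i), (dd f (pt m j)) ^ lam =
        (dd f (pt k i)) ^ lam *
          ∑ j ∈ S.filter (fun j => j / 2 ^ (m - k) = i), (dd f (pt m j) / dd f (pt k i)) ^ lam := by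
      rw [Finset.mul_sum]
      refine Finset.sum_congr rfl fun j _ => ?_
      have hpj : 0 < dd f (pt m j) := hT.pos m j
      rw [← Real.mul_rpow hpos.le (by positivity)]
      congr 1
      field_simp
    rw [h5]
    refine mul_le_mul_of_nonneg_left ?_ (by positivity)
    refine h4.trans (le_of_eq ?_)
    rw [hB]
    ring
  refine (Finset.sum_le_sum h3).trans ?_
  rw [← Finset.sum_mul]
  have h4 := hK1 _ _ hT k I (by
    intro i hi
    rw [hI, Finset.mem_filter, Finset.mem_range] at hi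
    refine ⟨hi.1, ?_⟩
    rw [sub_zero]
    exact hi.2)
  simp only [neg_zero, Real.rpow_zero, mul_one, sub_zero] at h4
  have h5 : 0 ≤ (4 : ℝ) ^ ((k : ℝ) * lam) := by positivity
  have h6 : ∑ i ∈ I, (dd f (pt k i)) ^ lam ≤ max K1 0 * 4 ^ ((k : ℝ) * lam) :=
    h4.trans (mul_le_mul_of_nonneg_right (le_max_left _ _) h5)
  have h7 : 0 ≤ K2 * B k := mul_nonneg hK20 (hB0 k hk)
  calc (∑ i ∈ I, (dd f (pt k i)) ^ lam) * (K2 * B k) ≤
        (max K1 0 * 4 ^ ((k : ℝ) * lam)) * (K2 * B k) := mul_le_mul_of_nonneg_right h6 h7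
    _ = _ := by rw [hB]; ring

end V5helper67.SZ
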