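import Pool.Agent.V5helper73.SZ.Stm

set_option autoImplicit false
open Complex Metric Set Filter Topology MeasureTheory

namespace V5helper67.SZ

open V5helper73.SZ

theorem one_sub_ne {z : ℂ} (hz : z ∈ ball (0:ℂ) 1) : 1 - z ≠ 0 := by
  intro h
  have h1 : z = 1 := by
    have := sub_eq_zero.1 h
    exact this.symm
  rw [h1] at hz
  simp at hz

theorem koebe_deriv {z : ℂ} (hz : z ∈ ball (0:ℂ) 1) :
    HasDerivAt (fun z : ℂ => z / (1 - z) ^ 2) ((1 + z) / (1 - z) ^ 3) z := by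
  have h0 := one_sub_ne hz
  have h1 : HasDerivAt (fun z : ℂ => (1 - z) ^ 2) (((2 : ℕ) : ℂ) * (1 - z) ^ (2 - 1) * (-1)) z :=
    ((hasDerivAt_id' z).const_sub 1).pow 2
  have h2 : HasDerivAt (fun z : ℂ => z / (1 - z) ^ 2)
      ((1 * (1 - z) ^ 2 - z * (((2 : ℕ) : ℂ) * (1 - z) ^ (2 - 1) * (-1))) / ((1 - z) ^ 2) ^ 2) z :=
    (hasDerivAt_id' z).div h1 (pow_ne_zero 2 h0)
  refine h2.congr_deriv ?_
  rw [div_eq_div_iff (pow_ne_zero 2 (pow_ne_zero 2 h0)) (pow_ne_zero 3 h0)]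
  push_cast
  ring

theorem t_KOS : S_KOS where
  diff := fun z hz => (koebe_deriv hz).differentiableAt.differentiableWithinAt
  inj := by
    intro z hz w hw h
    simp only at h
    have h1 := one_sub_ne hz
    have h2 := one_sub_ne hw
    rw [div_eq_div_iff (pow_ne_zero 2 h1) (pow_ne_zero 2 h2)] at h
    have h3 : (z - w) * (1 - z * w) = 0 := by linear_combination h
    rcases mul_eq_zero.1 h3 with h4 | h4
    · exact sub_eq_zero.1 h4
    · exfalso
      have h5 : z * w = 1 := (sub_eq_zero.1 h4).symm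
      have h6 : ‖z‖ * ‖w‖ = 1 := by rw [← norm_mul, h5, norm_one]
      rw [mem_ball_zero_iff] at hz hw
      nlinarith [norm_nonneg z, norm_nonneg w]
  zero := by simp
  one := by
    have h := (koebe_deriv (z := 0) (by simp)).deriv
    rw [h]
    simp

theorem t_KOE : S_KOE := by
  intro lam hlam
  refine ⟨(1 / (2 * Real.pi)) * (8 : ℝ) ^ (-lam), by positivity, ?_⟩
  intro r hr hr1
  have hpi := Real.pi_pos
  have hpi3 := Real.pi_gt_three
  have hball : ∀ θ : ℝ, circleMap 0 r θ ∈ ball (0:ℂ) 1 := by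
    intro θ
    rw [mem_ball_zero_iff, norm_circleMap_zero, abs_of_nonneg (by linarith)]
    exact hr1
  have hcont : Continuous (fun θ : ℝ =>
      ‖deriv (fun z : ℂ => z / (1 - z) ^ 2) (circleMap 0 r θ)‖ ^ lam) := by
    have h1 : (fun θ : ℝ => ‖deriv (fun z : ℂ => z / (1 - z) ^ 2) (circleMap 0 r θ)‖ ^ lam) =
        fun θ : ℝ => ‖(1 + circleMap 0 r θ) / (1 - circleMap 0 r θ) ^ 3‖ ^ lam := by
      funext θ
      rw [(koebe_deriv (hball θ)).deriv]
    rw [h1]
    refine Continuous.rpow_const ?_ (fun _ => Or.inr hlam.le)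
    refine Continuous.norm ?_
    refine Continuous.div ?_ ?_ (fun θ => pow_ne_zero 3 (one_sub_ne (hball θ)))
    · exact continuous_const.add (continuous_circleMap 0 r)
    · exact (continuous_const.sub (continuous_circleMap 0 r)).pow 3
  have hlow : ∀ θ ∈ Icc (0:ℝ) (1 - r), (8 * (1 - r) ^ 3) ^ (-lam) ≤
      ‖deriv (fun z : ℂ => z / (1 - z) ^ 2) (circleMap 0 r θ)‖ ^ lam := by
    intro θ hθ
    rw [(koebe_deriv (hball θ)).deriv]
    have hp : 0 < 1 - r := by linarith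
    have h1 : ‖1 - circleMap 0 r θ‖ ≤ 2 * (1 - r) := by
      have h2 : (1 : ℂ) - circleMap 0 r θ = (1 - r : ℂ) + (r : ℂ) * (1 - Complex.exp (θ * Complex.I)) := by
        simp [circleMap]
        ring
      rw [h2]
      have h3 : ‖(1 - Complex.exp (θ * Complex.I) : ℂ)‖ ≤ θ := by
        have h4 := Real.norm_exp_I_mul_ofReal_sub_one_le (x := θ)
        rw [norm_sub_rev, mul_comm (θ : ℂ) Complex.I]
        calc _ ≤ ‖θ‖ := h4
          _ = θ := by rw [Real.norm_eq_abs, abs_of_nonneg hθ.1]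
      calc ‖(1 - r : ℂ) + (r : ℂ) * (1 - Complex.exp (θ * Complex.I))‖ ≤
            ‖(1 - r : ℂ)‖ + ‖(r : ℂ) * (1 - Complex.exp (θ * Complex.I))‖ := norm_add_le _ _
        _ ≤ (1 - r) + r * θ := by
            have h5 : ‖(1 - r : ℂ)‖ = 1 - r := by
              rw [show (1 - r : ℂ) = ((1 - r : ℝ) : ℂ) by push_cast; ring, Complex.norm_real,
                Real.norm_eq_abs, abs_of_pos hp]
            rw [h5, norm_mul, Complex.norm_real, Real.norm_eq_abs, abs_of_nonneg (by linarith : 0 ≤ r)]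
            have := mul_le_mul_of_nonneg_left h3 (by linarith : (0:ℝ) ≤ r)
            linarith
        _ ≤ 2 * (1 - r) := by
            have := hθ.2
            nlinarith [hθ.1]
    have h2 : 1 ≤ ‖1 + circleMap 0 r θ‖ := by
      have h3 : (1 + circleMap 0 r θ).re = 1 + r * Real.cos θ := by
        simp [circleMap, Complex.exp_re]
      have h4 : 0 ≤ Real.cos θ := Real.cos_nonneg_of_neg_pi_div_two_le_of_le (by linarith [hθ.1])
        (by linarith [hθ.2])
      have h5 := Complex.abs_re_le_norm (1 + circleMap 0 r θ)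
      rw [h3] at h5
      have h6 := le_abs_self (1 + r * Real.cos θ)
      have h7 : 0 ≤ r * Real.cos θ := mul_nonneg (by linarith) h4
      linarith
    have h0 : 0 < ‖1 - circleMap 0 r θ‖ := norm_pos_iff.2 (one_sub_ne (hball θ))
    have h3 : 1 / (8 * (1 - r) ^ 3) ≤ ‖(1 + circleMap 0 r θ) / (1 - circleMap 0 r θ) ^ 3‖ := by
      rw [norm_div, norm_pow]
      rw [div_le_div_iff₀ (by positivity) (by positivity)]
      have h4 : ‖1 - circleMap 0 r θ‖ ^ 3 ≤ (2 * (1 - r)) ^ 3 := pow_le_pow_left₀ h0.le h1 3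
      have h5 : 0 < 8 * (1 - r) ^ 3 := by positivity
      nlinarith
    calc (8 * (1 - r) ^ 3) ^ (-lam) = (1 / (8 * (1 - r) ^ 3)) ^ lam := by
          rw [Real.rpow_neg (by positivity), one_div, Real.inv_rpow (by positivity)]
      _ ≤ _ := Real.rpow_le_rpow (by positivity) h3 hlam.le
  have hint : ∀ a b : ℝ, IntervalIntegrable (fun θ : ℝ =>
      ‖deriv (fun z : ℂ => z / (1 - z) ^ 2) (circleMap 0 r θ)‖ ^ lam) volume a b :=
    fun a b => hcont.intervalIntegrable a b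
  have h1 : (1 - r) * (8 * (1 - r) ^ 3) ^ (-lam) ≤
      ∫ θ in (0:ℝ)..(1 - r), ‖deriv (fun z : ℂ => z / (1 - z) ^ 2) (circleMap 0 r θ)‖ ^ lam := by
    have h2 : ∫ _θ in (0:ℝ)..(1 - r), (8 * (1 - r) ^ 3) ^ (-lam) = (1 - r) * (8 * (1 - r) ^ 3) ^ (-lam) := by
      rw [intervalIntegral.integral_const]
      simp
    rw [← h2]
    exact intervalIntegral.integral_mono_on (by linarith) (by simp) (hint _ _) hlow
  have h2 : ∫ θ in (0:ℝ)..(1 - r), ‖deriv (fun z : ℂ => z / (1 - z) ^ 2) (circleMap 0 r θ)‖ ^ lam ≤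
      ∫ θ in (0:ℝ)..(2 * Real.pi), ‖deriv (fun z : ℂ => z / (1 - z) ^ 2) (circleMap 0 r θ)‖ ^ lam := by
    rw [← intervalIntegral.integral_add_adjacent_intervals (hint 0 (1 - r)) (hint (1 - r) (2 * Real.pi))]
    have h3 : 0 ≤ ∫ θ in (1 - r)..(2 * Real.pi),
        ‖deriv (fun z : ℂ => z / (1 - z) ^ 2) (circleMap 0 r θ)‖ ^ lam :=
      intervalIntegral.integral_nonneg (by linarith) (fun θ _ => by positivity)
    linarith
  have h3 : (8 : ℝ) ^ (-lam) * (1 - r) ^ (1 - 3 * lam) = (1 - r) * (8 * (1 - r) ^ 3) ^ (-lam) := by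
    have hp : 0 < 1 - r := by linarith
    rw [Real.mul_rpow (by norm_num) (by positivity)]
    have h4 : ((1 - r) ^ 3 : ℝ) ^ (-lam) = (1 - r) ^ (-(3 * lam)) := by
      rw [← Real.rpow_natCast, ← Real.rpow_mul hp.le]
      congr 1
      push_cast
      ring
    rw [h4, show (1 - 3 * lam : ℝ) = 1 + (-(3 * lam)) by ring, Real.rpow_add hp, Real.rpow_one]
    ring
  calc 1 / (2 * Real.pi) * (8 : ℝ) ^ (-lam) * (1 - r) ^ (1 - 3 * lam) =
        1 / (2 * Real.pi) * ((8 : ℝ) ^ (-lam) * (1 - r) ^ (1 - 3 * lam)) := by ring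
    _ = 1 / (2 * Real.pi) * ((1 - r) * (8 * (1 - r) ^ 3) ^ (-lam)) := by rw [h3]
    _ ≤ _ := mul_le_mul_of_nonneg_left (h1.trans h2) (by positivity)

end V5helper67.SZ
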